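import Mathlib

namespace Pool.Agent.Results.MP_28dfab_co.Disproof

open Finset

/-- Strict order of `P₆`: `inl i` is `x_{i+1}`, `inr j` is `y_{j+1}`. -/
def lt6 : Fin 3 ⊕ Fin 3 → Fin 3 ⊕ Fin 3 → Prop
  | .inl i, .inr j => i = 1 ∨ j = 1
  | _, _ => False

def ContainsP6 (P : Type) [PartialOrder P] : Prop :=
  ∃ f : Fin 3 ⊕ Fin 3 → P, Function.Injective f ∧ ∀ a b, f a < f b ↔ lt6 a b

/-- `A` is a family of `k` pairwise disjoint antichains. -/
def DisjAnti {P : Type} [PartialOrder P] {k : ℕ} (A : Fin k → Set P) : Prop :=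
  (∀ i, IsAntichain (· ≤ ·) (A i)) ∧ Pairwise (fun i j => Disjoint (A i) (A j))

/-- Largest size of a union of `k` pairwise disjoint antichains. -/
noncomputable def dk (P : Type) [PartialOrder P] (k : ℕ) : ℕ :=
  sSup {n | ∃ A : Fin k → Set P, DisjAnti A ∧ (⋃ i, A i).ncard = n}

/-- Largest size of a chain. -/
noncomputable def height (P : Type) [PartialOrder P] : ℕ :=
  sSup {n | ∃ C : Set P, IsChain (· ≤ ·) C ∧ C.ncard = n}

def Decomposable (P : Type) [PartialOrder P] : Prop :=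
  ∃ A : Fin (height P) → Set P, DisjAnti A ∧ (⋃ i, A i) = Set.univ ∧
    ∀ k, 1 ≤ k → k ≤ height P → (⋃ i : Fin (height P), ⋃ _ : i.val < k, A i).ncard = dk P k

def Q := Fin 8

instance : Fintype Q := inferInstanceAs (Fintype (Fin 8))
instance : DecidableEq Q := inferInstanceAs (DecidableEq (Fin 8))

def leB (a b : Fin 8) : Bool := ([141, 70, 4, 8, 80, 96, 64, 128].getD a.val 0).testBit b.val

instance : PartialOrder Q where
  le a b := leB a b = true
  le_refl := by show ∀ a : Fin 8, leB a a = true; decide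
  le_trans := by
    show ∀ a b c : Fin 8, leB a b = true → leB b c = true → leB a c = true; decide
  le_antisymm := by show ∀ a b : Fin 8, leB a b = true → leB b a = true → a = b; decide

instance : DecidableRel (fun a b : Q => a ≤ b) := fun _ _ =>
  inferInstanceAs (Decidable (_ = true))

theorem lt_iff (a b : Q) : a < b ↔ (leB a b = true ∧ ¬ leB b a = true) := lt_iff_le_not_ge

set_option synthInstance.maxSize 4000 in
theorem noP6 : ¬ ContainsP6 Q := by
  rintro ⟨f, hf, h⟩
  have key : ∀ a b : Fin 8, (leB a b = true ∧ ¬ leB b a = true) →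
      ∀ x1 x3 : Fin 8, (leB x1 b = true ∧ ¬ leB b x1 = true) →
        (leB x3 b = true ∧ ¬ leB b x3 = true) → x1 ≠ x3 → x1 ≠ a → x3 ≠ a →
      ∀ y1 y3 : Fin 8, (leB a y1 = true ∧ ¬ leB y1 a = true) →
        (leB a y3 = true ∧ ¬ leB y3 a = true) → y1 ≠ y3 → y1 ≠ b → y3 = b := by
    decide +kernel
  have ne : ∀ a b, a ≠ b → f a ≠ f b := fun a b c e => c (hf e)
  refine ne (.inr 2) (.inr 1) (by decide) (key (f (.inl 1)) (f (.inr 1)) ?_ (f (.inl 0)) (f (.inl 2))
    ?_ ?_ (ne _ _ (by decide)) (ne _ _ (by decide)) (ne _ _ (by decide)) (f (.inr 0)) (f (.inr 2))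
    ?_ ?_ (ne _ _ (by decide)) (ne _ _ (by decide))) <;>
  exact (lt_iff _ _).1 ((h _ _).2 (by simp [lt6]))

theorem bdd (p : Set Q → Prop) : BddAbove {n | ∃ C : Set Q, p C ∧ C.ncard = n} :=
  ⟨Nat.card Q, by rintro n ⟨C, -, rfl⟩; exact Set.ncard_le_card C⟩

theorem height_eq : height Q = 2 := by
  apply le_antisymm
  · apply csSup_le'
    rintro n ⟨C, hC, rfl⟩
    by_contra c
    obtain ⟨a, ha, b, hb, d, hd, h1, h2, h3⟩ := (Set.two_lt_ncard (Set.toFinite C)).1 (not_le.1 c)
    have key : ∀ a b d : Fin 8, a ≠ b → a ≠ d → b ≠ d → (leB a b = true ∨ leB b a = true) →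
        (leB a d = true ∨ leB d a = true) → ¬ (leB b d = true ∨ leB d b = true) := by
      decide +kernel
    exact key a b d h1 h2 h3 (hC ha hb h1) (hC ha hd h2) (hC hb hd h3)
  · apply le_csSup (bdd _)
    refine ⟨{(0 : Fin 8), (2 : Fin 8)}, ?_, Set.ncard_pair (by decide)⟩
    rintro a (rfl | rfl) b (rfl | rfl) c
    · exact absurd rfl c
    · exact Or.inl (by show leB 0 2 = true; decide)
    · exact Or.inr (by show leB 0 2 = true; decide)
    · exact absurd rfl c

theorem d1 : 5 ≤ dk Q 1 := by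
  apply le_csSup
  · exact ⟨Nat.card Q, by rintro n ⟨C, -, rfl⟩; exact Set.ncard_le_card _⟩
  · let S : Finset (Fin 8) := {1, 3, 4, 5, 7}
    refine ⟨fun _ => (S : Set (Fin 8)), ⟨fun _ => ?_, ?_⟩, ?_⟩
    · have : ∀ a ∈ S, ∀ b ∈ S, a ≠ b → ¬ leB a b = true := by decide
      intro a ha b hb h
      exact this a ha b hb h
    · intro i j h
      exact absurd (Subsingleton.elim i j) h
    · rw [Set.iUnion_const]
      exact (Set.ncard_coe_finset S).trans (by decide)

theorem result : ¬ ∀ (P : Type) [Fintype P] [PartialOrder P], ¬ ContainsP6 P → Decomposable P := by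
  intro h
  have h0 := h Q noP6
  unfold Decomposable at h0
  rw [height_eq] at h0
  obtain ⟨A, ⟨hA, -⟩, hU, hk⟩ := h0
  have h1 := hk 1 le_rfl (by norm_num)
  have e : (⋃ i : Fin 2, ⋃ _ : i.val < 1, A i) = A 0 := by
    ext x
    simp only [Set.mem_iUnion, exists_prop]
    constructor
    · rintro ⟨i, hi, hx⟩
      have : i = 0 := Fin.ext (by simpa using hi)
      exact this ▸ hx
    · exact fun hx => ⟨0, by simp, hx⟩
  rw [e] at h1
  have key : ∀ S : Finset (Fin 8), (∀ a ∈ S, ∀ b ∈ S, a ≠ b → ¬ leB a b = true) →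
      (∀ a ∉ S, ∀ b ∉ S, a ≠ b → ¬ leB a b = true) → S.card ≤ 4 := by decide +kernel
  classical
  have hc : ∀ a, a ∉ A 0 → a ∈ A 1 := by
    intro a ha
    have : a ∈ ⋃ i, A i := hU ▸ Set.mem_univ a
    obtain ⟨i, hi⟩ := Set.mem_iUnion.1 this
    fin_cases i
    · exact absurd hi ha
    · exact hi
  have := key (Set.toFinite (A 0)).toFinset
    (fun a ha b hb c => hA 0 ((Set.Finite.mem_toFinset _).1 ha) ((Set.Finite.mem_toFinset _).1 hb) c)
    (fun a ha b hb c => hA 1 (hc a (fun t => ha ((Set.Finite.mem_toFinset _).2 t)))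
      (hc b (fun t => hb ((Set.Finite.mem_toFinset _).2 t))) c)
  have h2 := Set.ncard_eq_toFinset_card (A 0) (Set.toFinite _)
  have := d1
  have h3 : (A 0).ncard ≤ 4 := by rw [h2]; assumption
  omega

end Pool.Agent.Results.MP_28dfab_co.Disproof
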